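import Pool.Agent.Lib.MP_2c0439_al.Many
import Pool.Agent.Lib.MP_2c0439_al.Few

/-!
# A countably infinite interval of strong partial clones

There is a clone `C` on a set with four elements for which the set of the strong partial clones with
total part `C` is countably infinite.
-/

set_option autoImplicit false

namespace Pool.Agent.Results.MP_2c0439_al.CountableInterval

/-- `P_A`: the partial operations on `A` of arity `n ≥ 1`, that is, the partial functions from the
`n`-th power of `A` to `A`. -/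
abbrev PA (A : Type) : Type := Σ n : ℕ+, ((Fin n → A) →. A)

/-- `O_A`: the operations which are defined everywhere. -/
def OA (A : Type) : Set (PA A) := {f | ∀ x, (f.2 x).Dom}

/-- The composition `f(g_1, …, g_n)`: defined at `x` exactly when all the `g_i(x)` are defined and
their tuple is in the domain of `f`. -/
def comp {A : Type} {n m : ℕ+} (f : (Fin n → A) →. A) (g : Fin n → ((Fin m → A) →. A)) :
    (Fin m → A) →. A := fun x =>
  { Dom := ∃ h : ∀ i, (g i x).Dom, (f fun i => (g i x).get (h i)).Dom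
    get := fun h => (f fun i => (g i x).get (h.fst i)).get h.snd }

/-- Partial clones: the sets of partial operations which contain the projections and are closed
under composition. -/
structure IsPartialClone {A : Type} (P : Set (PA A)) : Prop where
  proj_mem : ∀ (n : ℕ+) (i : Fin n), (⟨n, fun x => Part.some (x i)⟩ : PA A) ∈ P
  comp_mem : ∀ (n m : ℕ+) (f : (Fin n → A) →. A) (g : Fin n → ((Fin m → A) →. A)),
    (⟨n, f⟩ : PA A) ∈ P → (∀ i, (⟨m, g i⟩ : PA A) ∈ P) → (⟨m, comp f g⟩ : PA A) ∈ P

/-- Closed under taking restrictions. -/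
def IsStrong {A : Type} (P : Set (PA A)) : Prop :=
  ∀ (n : ℕ+) (f g : (Fin n → A) →. A), (⟨n, f⟩ : PA A) ∈ P →
    (∀ (x : Fin n → A) (a : A), a ∈ g x → a ∈ f x) → (⟨n, g⟩ : PA A) ∈ P

/-- Total clones. -/
def IsTotalClone {A : Type} (C : Set (PA A)) : Prop := IsPartialClone C ∧ C ⊆ OA A

/-- The interval of the strong partial clones with total part `C`. -/
def IStr {A : Type} (C : Set (PA A)) : Set (Set (PA A)) :=
  {P | IsPartialClone P ∧ IsStrong P ∧ P ∩ OA A = C}

open Pool.Agent.MP_2c0439_al (Fam IsI pPol path many countable_isI isI_pPol_path)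

/-- The clone of the construction. -/
private def C4 : Set (PA (Fin 4)) :=
  {p | ∃ (n : ℕ) (f : (Fin (n + 1) → Fin 4) → Fin 4), f ∈ Pool.Agent.MP_2c0439_al.C n ∧
    p = ⟨n.succPNat, fun x => Part.some (f x)⟩}

private def enc (n : ℕ) (f : (Fin (n + 1) → Fin 4) → Option (Fin 4)) : PA (Fin 4) :=
  ⟨n.succPNat, fun x => (f x : Part (Fin 4))⟩

private theorem enc_surj (p : PA (Fin 4)) : ∃ (n : ℕ) (f : (Fin (n + 1) → Fin 4) → Option (Fin 4)),
    p = enc n f := by
  classical
  obtain ⟨n, f⟩ := p
  obtain ⟨k, rfl⟩ : ∃ k : ℕ, n = k.succPNat := ⟨n.natPred, (PNat.succPNat_natPred n).symm⟩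
  refine ⟨k, fun x => (f x).toOption, ?_⟩
  unfold enc
  congr 1
  funext x
  exact (Part.of_toOption (f x)).symm

private theorem of_inj {a b : Option (Fin 4)} (h : (a : Part (Fin 4)) = (b : Part (Fin 4))) :
    a = b := by
  refine Option.ext fun c => ?_
  have h1 : c ∈ (a : Part (Fin 4)) ↔ c ∈ (b : Part (Fin 4)) := by rw [h]
  rwa [Part.mem_coe, Part.mem_coe, Option.mem_def, Option.mem_def] at h1

private theorem enc_inj {n : ℕ} {f g : (Fin (n + 1) → Fin 4) → Option (Fin 4)}
    (h : enc n f = enc n g) : f = g := by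
  unfold enc at h
  have h1 := eq_of_heq (Sigma.mk.inj h).2
  funext x
  exact of_inj (congrFun h1 x)

private theorem enc_arity {n m : ℕ} {f : (Fin (n + 1) → Fin 4) → Option (Fin 4)}
    {g : (Fin (m + 1) → Fin 4) → Option (Fin 4)} (h : enc n f = enc m g) : n = m := by
  unfold enc at h
  exact Nat.succPNat_inj.1 (Sigma.mk.inj h).1

private def toFam (P : Set (PA (Fin 4))) : Fam := fun n => {f | enc n f ∈ P}

private theorem toFam_inj : Function.Injective toFam := by
  intro P Q h
  ext p
  obtain ⟨n, f, rfl⟩ := enc_surj p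
  exact Set.ext_iff.1 (congrFun h n) f

private theorem toFam_surj : Function.Surjective toFam := by
  intro F
  refine ⟨{p | ∃ n, ∃ f ∈ F n, p = enc n f}, ?_⟩
  funext n
  ext f
  constructor
  · rintro ⟨m, g, hg, h⟩
    obtain rfl := enc_arity h
    rw [enc_inj h]
    exact hg
  · intro hf
    exact ⟨n, f, hf, rfl⟩

private theorem enc_tot {n : ℕ} {f : (Fin (n + 1) → Fin 4) → Option (Fin 4)} :
    enc n f ∈ OA (Fin 4) ↔ ∃ f' : (Fin (n + 1) → Fin 4) → Fin 4, f = fun x => some (f' x) := by
  constructor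
  · intro h
    have h1 : ∀ x, ∃ a, f x = some a := by
      intro x
      have h2 : ((f x : Option (Fin 4)) : Part (Fin 4)).Dom := h x
      cases hx : f x with
      | none => rw [hx] at h2; exact h2.elim
      | some a => exact ⟨a, rfl⟩
    choose f' hf' using h1
    exact ⟨f', funext hf'⟩
  · rintro ⟨f', rfl⟩ x
    exact trivial

private theorem enc_C4 {n : ℕ} {f : (Fin (n + 1) → Fin 4) → Option (Fin 4)} :
    enc n f ∈ C4 ↔ ∃ f' ∈ Pool.Agent.MP_2c0439_al.C n, f = fun x => some (f' x) := by
  constructor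
  · rintro ⟨m, g, hg, h⟩
    have h' : enc n f = enc m fun x => some (g x) := h
    obtain rfl := enc_arity h'
    exact ⟨g, hg, enc_inj h'⟩
  · rintro ⟨f', hf', rfl⟩
    exact ⟨n, f', hf', rfl⟩

private theorem comp_enc {n m : ℕ} (f : (Fin (n + 1) → Fin 4) → Option (Fin 4))
    (g : Fin (n + 1) → (Fin (m + 1) → Fin 4) → Option (Fin 4))
    (h : (Fin (m + 1) → Fin 4) → Option (Fin 4))
    (hh : ∀ x b, h x = some b ↔
      ∃ y : Fin (n + 1) → Fin 4, (∀ i, g i x = some (y i)) ∧ f y = some b) :
    enc m h = ⟨m.succPNat, comp (n := n.succPNat) (fun x => (f x : Part (Fin 4)))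
      fun i x => (g i x : Part (Fin 4))⟩ := by
  unfold enc
  congr 1
  funext x
  refine Part.ext fun b => Iff.trans Part.mem_coe (Iff.trans (hh x b) ?_)
  constructor
  · rintro ⟨y, hy, hb⟩
    have h1 : ∀ i : Fin (n + 1), y i ∈ ((g i x : Option (Fin 4)) : Part (Fin 4)) := fun i => by
      rw [Part.mem_coe, Option.mem_def]
      exact hy i
    have h2 : (fun i : Fin (n + 1) => ((g i x : Option (Fin 4)) : Part (Fin 4)).get (h1 i).fst) = y :=
      funext fun i => (h1 i).snd
    have h3 : b ∈ ((f y : Option (Fin 4)) : Part (Fin 4)) := by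
      rw [Part.mem_coe, Option.mem_def]
      exact hb
    rw [← h2] at h3
    exact ⟨⟨fun i => (h1 i).fst, h3.fst⟩, h3.snd⟩
  · rintro ⟨⟨h1, h2⟩, h3⟩
    refine ⟨fun i => ((g i x : Option (Fin 4)) : Part (Fin 4)).get (h1 i), fun i => ?_, ?_⟩
    · have h4 : ((g i x : Option (Fin 4)) : Part (Fin 4)).get (h1 i) ∈
          ((g i x : Option (Fin 4)) : Part (Fin 4)) := Part.get_mem _
      rwa [Part.mem_coe, Option.mem_def] at h4
    · have h4 : b ∈ ((f fun i => ((g i x : Option (Fin 4)) : Part (Fin 4)).get (h1 i) :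
          Option (Fin 4)) : Part (Fin 4)) := ⟨h2, h3⟩
      rwa [Part.mem_coe, Option.mem_def] at h4

private theorem isClone_iff (P : Set (PA (Fin 4))) : P ∈ IStr C4 ↔ IsI (toFam P) := by
  constructor
  · rintro ⟨⟨hpr, hco⟩, hst, hto⟩
    refine ⟨fun n i => ?_, fun n m f g h hf hg hh => ?_, fun n f h hf hfh => ?_, fun n f => ?_⟩
    · exact hpr n.succPNat i
    · show enc m h ∈ P
      rw [comp_enc f g h hh]
      exact hco n.succPNat m.succPNat _ _ hf hg
    · refine hst n.succPNat _ _ hf fun x a ha => ?_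
      have h1 : a ∈ ((h x : Option (Fin 4)) : Part (Fin 4)) := ha
      rw [Part.mem_coe, Option.mem_def] at h1
      show a ∈ ((f x : Option (Fin 4)) : Part (Fin 4))
      rw [Part.mem_coe, Option.mem_def]
      exact hfh x a h1
    · have h1 : enc n (fun x => some (f x)) ∈ C4 ↔ f ∈ Pool.Agent.MP_2c0439_al.C n := by
        rw [enc_C4]
        constructor
        · rintro ⟨f', hf', h⟩
          have : f = f' := funext fun x => Option.some.inj (congrFun h x)
          rw [this]
          exact hf'
        · intro h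
          exact ⟨f, h, rfl⟩
      rw [← h1, ← hto]
      constructor
      · intro h
        exact h.1
      · intro h
        exact ⟨h, enc_tot.2 ⟨f, rfl⟩⟩
  · intro hI
    refine ⟨⟨fun n i => ?_, fun n m f g hf hg => ?_⟩, fun n f g hf hfg => ?_, ?_⟩
    · obtain ⟨k, rfl⟩ : ∃ k : ℕ, n = k.succPNat := ⟨n.natPred, (PNat.succPNat_natPred n).symm⟩
      exact hI.proj k i
    · classical
      obtain ⟨k, rfl⟩ : ∃ k : ℕ, n = k.succPNat := ⟨n.natPred, (PNat.succPNat_natPred n).symm⟩
      obtain ⟨l, rfl⟩ : ∃ k : ℕ, m = k.succPNat := ⟨m.natPred, (PNat.succPNat_natPred m).symm⟩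
      obtain ⟨f', rfl⟩ : ∃ f' : (Fin (k + 1) → Fin 4) → Option (Fin 4),
          f = fun x => (f' x : Part (Fin 4)) :=
        ⟨fun x => (f x).toOption, funext fun x => (Part.of_toOption (f x)).symm⟩
      obtain ⟨g', rfl⟩ : ∃ g' : Fin (k + 1) → (Fin (l + 1) → Fin 4) → Option (Fin 4),
          g = fun i x => (g' i x : Part (Fin 4)) :=
        ⟨fun i x => (g i x).toOption, funext fun i => funext fun x =>
          (Part.of_toOption (g i x)).symm⟩
      have h1 := comp_enc f' g' (Pool.Agent.MP_2c0439_al.cmp f' g')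
        (Pool.Agent.MP_2c0439_al.cmp_spec f' g')
      have h2 : enc l (Pool.Agent.MP_2c0439_al.cmp f' g') ∈ P := hI.cmp_mem hf hg
      rw [h1] at h2
      exact h2
    · classical
      obtain ⟨k, rfl⟩ : ∃ k : ℕ, n = k.succPNat := ⟨n.natPred, (PNat.succPNat_natPred n).symm⟩
      obtain ⟨f', rfl⟩ : ∃ f' : (Fin (k + 1) → Fin 4) → Option (Fin 4),
          f = fun x => (f' x : Part (Fin 4)) :=
        ⟨fun x => (f x).toOption, funext fun x => (Part.of_toOption (f x)).symm⟩
      obtain ⟨g', rfl⟩ : ∃ g' : (Fin (k + 1) → Fin 4) → Option (Fin 4),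
          g = fun x => (g' x : Part (Fin 4)) :=
        ⟨fun x => (g x).toOption, funext fun x => (Part.of_toOption (g x)).symm⟩
      refine hI.res k f' g' hf fun x b hb => ?_
      have h1 := hfg x b (by rw [Part.mem_coe, Option.mem_def]; exact hb)
      rwa [Part.mem_coe, Option.mem_def] at h1
    · ext p
      obtain ⟨n, f, rfl⟩ := enc_surj p
      rw [enc_C4]
      constructor
      · rintro ⟨h1, h2⟩
        obtain ⟨f', rfl⟩ := enc_tot.1 h2
        exact ⟨f', (hI.tot n f').2 h1, rfl⟩
      · rintro ⟨f', h1, rfl⟩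
        exact ⟨(hI.tot n f').1 h1, enc_tot.2 ⟨f', rfl⟩⟩

private theorem totalClone_C4 : IsTotalClone C4 := by
  have hI := isI_pPol_path (N := 2) (by omega)
  obtain ⟨P, hP⟩ := toFam_surj (pPol (path 2).Sol)
  rw [← hP] at hI
  obtain ⟨⟨hpr, hco⟩, -, hto⟩ := (isClone_iff P).2 hI
  rw [← hto]
  refine ⟨⟨fun n i => ⟨hpr n i, fun x => trivial⟩, fun n m f g hf hg => ⟨hco n m f g hf.1
    fun i => (hg i).1, fun x => ?_⟩⟩, Set.inter_subset_right⟩
  exact ⟨fun i => (hg i).2 x, hf.2 _⟩

/-- On a set with four elements there is a clone with a countably infinite interval of strong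
partial clones. -/
theorem result : ∃ C : Set (PA (Fin 4)), IsTotalClone C ∧
    Cardinal.mk (IStr C) = Cardinal.aleph0 := by
  refine ⟨C4, totalClone_C4, le_antisymm ?_ ?_⟩
  · rw [Cardinal.le_aleph0_iff_set_countable]
    refine Set.MapsTo.countable_of_injOn (f := toFam) (t := {F | IsI F}) ?_ toFam_inj.injOn
      countable_isI
    intro P hP
    exact (isClone_iff P).1 hP
  · rw [← Cardinal.infinite_iff, Set.infinite_coe_iff]
    refine Set.infinite_of_injective_forall_mem
      (f := fun k : ℕ => Function.surjInv toFam_surj (pPol (path (k + 2)).Sol)) ?_ fun k => ?_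
    · intro k l h
      have h1 := congrArg toFam h
      rw [Function.surjInv_eq toFam_surj, Function.surjInv_eq toFam_surj] at h1
      exact many h1
    · rw [isClone_iff, Function.surjInv_eq toFam_surj]
      exact isI_pPol_path (N := k + 2) (by omega)

end Pool.Agent.Results.MP_2c0439_al.CountableInterval
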